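import Pool.Agent.MP_db5b97_nt.H44.CON1

/-! Base change kills the invariants. -/

namespace Pool.Agent.MP_db5b97_nt.H44

open H85 H31 Finset Subgroup

variable {G N Y Y' A : Type} [Group G] [AddCommGroup N] [DistribMulAction G N] [MulAction G Y]
  [MulAction G Y'] [AddCommGroup A] {p : ℕ} {S' : Set Y'} {E : Y' → N →+ A}

/-- reduction of the stabiliser condition to one element of order dividing `p` -/
theorem EH.loc (hO : RowORB) (h : EH p G S' E) [Finite G] (hp : p.Prime) {ρ : Y' → Y}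
    {μ : Y' → ℕ} (hρ : ∀ (g : G) y, ρ (g • y) = g • ρ y) (hμ : ∀ (g : G) y, μ (g • y) = μ y)
    {w : Y} {Φ : Finset Y'} (h1 : ∀ y, y ∈ Φ ↔ ρ y = w) (h2 : ∑ y ∈ Φ, μ y = p)
    (h3 : ∀ y ∈ Φ, y ∈ S') (h4 : ∀ y ∈ Φ, ∀ y' ∈ Φ, ∃ g : G, g • y = y')
    (Q0 : Sylow p (MulAction.stabilizer G w)) {ν : N}
    (hN : ∀ τ : G, (∀ g ∈ (Q0 : Subgroup (MulAction.stabilizer G w)).map (Subgroup.subtype _),
      ∀ n : N, Nm τ p (g • n) = Nm τ p n) → Nm τ p ν = 0) :
    ∃ τ : G, τ ^ p = 1 ∧ ∃ y ∈ S', τ • y = y ∧ Nm τ p ν = 0 ∧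
      ∑ z ∈ Φ, μ z • (E z ν - E y ν) = 0 := by
  classical
  have := Fact.mk hp
  set Q := (Q0 : Subgroup (MulAction.stabilizer G w)).map (Subgroup.subtype _) with hQ
  have hQp : IsPGroup p Q := Q0.isPGroup'.map _
  have hQw : ∀ g ∈ Q, g • w = w := by
    rintro g ⟨k, -, rfl⟩
    exact k.2
  have hst : ∀ g : G, g • w = w → ∀ z ∈ Φ, g • z ∈ Φ := fun g hg z hz => by
    rw [h1, hρ, (h1 z).1 hz, hg]
  obtain ⟨y, hy⟩ : Φ.Nonempty := by
    rw [Finset.nonempty_iff_ne_empty]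
    rintro rfl
    exact hp.ne_zero (by simpa using h2.symm)
  have hc : Φ.card * μ y = p := by
    rw [← h2, ← smul_eq_mul, ← sum_const]
    refine sum_congr rfl fun z hz => ?_
    obtain ⟨g, rfl⟩ := h4 y hy z hz
    rw [hμ]
  rcases (Nat.dvd_prime hp).1 ⟨_, hc.symm⟩ with hc1 | hc1
  · obtain ⟨y', rfl⟩ := card_eq_one.1 hc1
    obtain rfl := mem_singleton.1 hy
    have : ∃ τ ∈ Q, ∀ g ∈ Q, ∀ n : N, Nm τ p (g • n) = Nm τ p n := by
      by_cases hb : Q ≤ ⊥
      · exact ⟨1, one_mem _, fun g hg n => by rw [mem_bot.1 (hb hg), one_smul]⟩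
      · obtain ⟨τ, hτ, -, hτ1, -⟩ := h.xh.gen Q ⊥ hQp hb
        exact ⟨τ, hτ, hτ1⟩
    obtain ⟨τ, hτ, hτ1⟩ := this
    exact ⟨τ, (h.xh.ab Q hQp τ hτ).1, y, h3 y hy, mem_singleton.1 (hst τ (hQw τ hτ) y hy),
      hN τ hτ1, by simp⟩
  · have hb : ¬ Q ≤ MulAction.stabilizer G y := by
      intro hle
      have e1 : (Q0 : Subgroup (MulAction.stabilizer G w)) ≤
          MulAction.stabilizer (MulAction.stabilizer G w) y := fun k hk => hle ⟨k, hk, rfl⟩
      have e2 : MulAction.orbit (MulAction.stabilizer G w) y = (Φ : Set Y') := by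
        ext z
        constructor
        · rintro ⟨k, rfl⟩
          exact hst k k.2 y hy
        · intro hz
          obtain ⟨g, rfl⟩ := h4 y hy z hz
          refine ⟨⟨g, ?_⟩, rfl⟩
          have := (h1 _).1 hz
          rwa [hρ, (h1 y).1 hy] at this
      have e3 := index_dvd_of_le e1
      rw [MulAction.index_stabilizer, e2, Set.ncard_coe_finset, hc1] at e3
      exact Q0.not_dvd_index e3
    obtain ⟨τ, hτ, hτy, hτ1, -⟩ := h.xh.gen Q _ hQp hb
    have hτp := (h.xh.ab Q hQp τ hτ).1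
    have hτw : ∀ g ∈ zpowers τ, g • w = w := fun g hg => fixed_smul hg (hQw τ hτ)
    obtain ⟨y1, hy1, hτ2⟩ := h.fx τ hτp
    have hmv : ∀ z ∈ Φ, τ • z ≠ z := by
      have := Fintype.ofFinite (zpowers τ)
      have hne : τ ≠ 1 := fun e => hτy (e ▸ one_mem _)
      have hinj : Function.Injective fun g : zpowers τ => g • y := fun a b hab => by
        have : (b⁻¹ * a) • y = y := by rw [mul_smul, inv_smul_eq_iff]; exact hab
        exact (inv_mul_eq_one.1 (free_of_ne hp hτp hτy _ this)).symm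
      have e1 : (univ.image fun g : zpowers τ => g • y) = Φ := by
        refine eq_of_subset_of_card_le (fun z hz => ?_) ?_
        · obtain ⟨g, -, rfl⟩ := mem_image.1 hz
          exact hst g (hτw g g.2) y hy
        · rw [card_image_of_injective _ hinj, card_univ, ← Nat.card_eq_fintype_card,
            Nat.card_zpowers, orderOf_eq_prime hτp hne, hc1]
      intro z hz
      rw [← e1] at hz
      obtain ⟨g, -, rfl⟩ := mem_image.1 hz
      exact moved_smul g.2 hτy
    refine ⟨τ, hτp, y1, hy1, hτ2, hN τ hτ1, ?_⟩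
    exact orb0 hO hp hτp Φ (fun z => μ z • (E z - E y1)) (hN τ hτ1)
      (fun g hg z hz => hst g (hτw g hg) z hz)
      (fun g hg z hz n => by
        have e := h.inv g z (h3 z hz) y1 hy1 n
        rw [fixed_smul hg hτ2] at e
        show μ (g • z) • (E (g • z) (g • n) - E y1 (g • n)) = μ z • (E z n - E y1 n)
        rw [hμ, e]) hmv

theorem EH.core (hO : RowORB) (h : EH p G S' E) [Fintype G] (hp : p.Prime) (hG : p ∣ Nat.card G)
    (tf : ∀ k : ℕ, k.Coprime p → ∀ a : A, k • a = 0 → a = 0) {ρ : Y' → Y} {μ : Y' → ℕ}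
    (hρ : ∀ (g : G) y, ρ (g • y) = g • ρ y) (hμ : ∀ (g : G) y, μ (g • y) = μ y) {S : Finset Y}
    (hS : ∀ (g : G), ∀ w ∈ S, g • w ∈ S) {Φ : Y → Finset Y'}
    (h1 : ∀ w ∈ S, ∀ y, y ∈ Φ w ↔ ρ y = w) (h2 : ∀ w ∈ S, ∑ y ∈ Φ w, μ y = p)
    (h3 : ∀ w ∈ S, ∀ y ∈ Φ w, y ∈ S') (h4 : ∀ w ∈ S, ∀ y ∈ Φ w, ∀ y' ∈ Φ w, ∃ g : G, g • y = y')
    {θ : Dg Y N} (t1 : ∀ w ∉ S, θ w = 0) (t2 : ∑ w ∈ S, θ w = 0) (t3 : tr G θ = 0) :
    ∑ w ∈ S, ∑ y ∈ Φ w, μ y • E y (θ w) = 0 := by
  classical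
  have := Fact.mk hp
  obtain ⟨T, _, _, F, hT, hF, hF0⟩ := h.exF hO hp hG
  obtain ⟨y0, hy0, -⟩ := h.fx 1 (one_pow p)
  let con : Y → N →+ A := fun w => ∑ y ∈ Φ w, μ y • E y
  have hc0 : ∀ w n, con w n = ∑ y ∈ Φ w, μ y • E y n := fun w n => by
    simp [con, AddMonoidHom.finsetSum_apply]
  have hc : ∀ w ∈ S, ∀ y n, con w n - E y (p • n) = ∑ z ∈ Φ w, μ z • (E z n - E y n) := by
    intro w hw y n
    simp only [hc0, smul_sub, sum_sub_distrib, ← sum_smul, h2 w hw, map_nsmul]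
  let f : Y → N →+ A := fun w => ∑ t, (con w - F t)
  have hf0 : ∀ w n, f w n = ∑ t, (con w n - F t n) := fun w n => by
    simp [f, AddMonoidHom.finsetSum_apply]
  have hf : ∀ (g : G), ∀ w ∈ S, ∀ n, f (g • w) (g • n) = f w n := by
    intro g w hw n
    have e1 : con (g • w) (g • n) - E (g • y0) (p • g • n) = con w n - E y0 (p • n) := by
      rw [hc _ (hS g w hw), hc w hw]
      symm
      refine Finset.sum_bijective (g • ·) (MulAction.bijective g) (fun z => ?_) fun z hz => ?_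
      · rw [h1 w hw, h1 _ (hS g w hw), hρ, smul_left_cancel_iff]
      · rw [hμ, h.inv g z (h3 w hw z hz) y0 hy0]
    rw [hf0, hf0]
    symm
    refine Fintype.sum_bijective (g • ·) (MulAction.bijective g) _ _ fun t => ?_
    linear_combination (norm := abel1) - e1 - hF g t y0 hy0 n
  have key := hO G Y N A S f θ hS hf ?_ t1 t3
  · refine tf _ hT _ ?_
    have e : ∑ w ∈ S, ∑ t, F t (θ w) = 0 := by
      rw [sum_comm]
      exact sum_eq_zero fun t _ => by rw [← map_sum, t2, map_zero]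
    simp only [hf0, sum_sub_distrib, e, sub_zero, sum_const, card_univ, hc0] at key
    rw [Finset.smul_sum]
    exact key
  · intro w hw D n hD hn
    have := Fintype.ofFinite (MulAction.stabilizer G w)
    obtain ⟨Q0⟩ : Nonempty (Sylow p (MulAction.stabilizer G w)) := inferInstance
    have := Fintype.ofFinite (Q0 : Subgroup (MulAction.stabilizer G w))
    have := Fintype.ofFinite
      (MulAction.stabilizer G w ⧸ (Q0 : Subgroup (MulAction.stabilizer G w)))
    set ν : N := ∑ t : MulAction.stabilizer G w ⧸ (Q0 : Subgroup (MulAction.stabilizer G w)),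
      ((t.out⁻¹ : MulAction.stabilizer G w) : G) • n with hν
    have e1 : ∑ q : (Q0 : Subgroup (MulAction.stabilizer G w)),
        (((q : MulAction.stabilizer G w)⁻¹ : MulAction.stabilizer G w) : G) • ν = 0 := by
      rw [Finset.sum_subtype D (p := fun g => g ∈ MulAction.stabilizer G w) (fun g => hD g)
        (fun g => g • n), ← Equiv.sum_comp (Equiv.inv _), sum_coset (Q0 : Subgroup _),
        sum_comm] at hn
      rw [← hn]
      refine sum_congr rfl fun q _ => ?_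
      rw [hν, Finset.smul_sum]
      refine sum_congr rfl fun t _ => ?_
      simp [mul_smul]
    obtain ⟨τ, hτ, y, hy, hτy, hN, hz⟩ := h.loc hO hp hρ hμ (h1 w hw) (h2 w hw) (h3 w hw) (h4 w hw)
      Q0 (ν := ν) fun τ hτ => by
        refine h.xh.tf (Fintype.card (Q0 : Subgroup (MulAction.stabilizer G w))) _
          Fintype.card_ne_zero ?_
        have e2 := congrArg (Nm τ p) e1
        rw [map_sum, map_zero] at e2
        rw [← e2, ← card_univ, ← sum_const]
        exact sum_congr rfl fun q _ => (hτ _ ⟨_, inv_mem q.2, rfl⟩ ν).symm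
    have e3 : f w ν = 0 := by
      rw [hf0, ← hF0 τ hτ y hy hτy ν hN]
      refine sum_congr rfl fun t _ => ?_
      rw [← hc w hw, sub_eq_zero] at hz
      rw [hz]
    refine tf (Fintype.card
      (MulAction.stabilizer G w ⧸ (Q0 : Subgroup (MulAction.stabilizer G w)))) ?_ _ ?_
    · rw [← Nat.card_eq_fintype_card, Nat.coprime_comm, hp.coprime_iff_not_dvd]
      exact Q0.not_dvd_index
    · rw [← e3, hν, map_sum, ← card_univ, ← sum_const]
      refine sum_congr rfl fun t _ => ?_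
      have e4 := hf ((t.out⁻¹ : MulAction.stabilizer G w) : G) w hw n
      rw [(t.out⁻¹ : MulAction.stabilizer G w).2] at e4
      exact e4.symm

theorem single_apply [DecidableEq Y] (y z : Y) (n : N) :
    Dg.single y n z = if y = z then n else 0 := Finsupp.single_apply

theorem smul_single (g : G) (y : Y) (n : N) : g • Dg.single y n = Dg.single (g • y) (g • n) := by
  classical
  ext z
  rw [Dg.smul_apply, single_apply, single_apply]
  by_cases e : g • y = z
  · rw [if_pos e, if_pos (by rw [← e, inv_smul_smul])]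
  · rw [if_neg e, if_neg (fun e' => e (by rw [e', smul_inv_smul])), smul_zero]

theorem rowCON (hO : RowORB) : RowCON := by
  classical
  intro p G N Y Y' _ _ _ _ _ _ ρ μ S S' θ hp hG hX hρ hμ hS hS' hΦ hfx t1 t2 t3
  choose! Φ h1 h2 h3 h4 using hΦ
  let B : AddSubgroup (Dg Y' N) :=
    { carrier := {x | (∀ y ∉ S', x y = 0) ∧ Dg.deg x = 0}
      zero_mem' := ⟨fun _ _ => rfl, map_zero _⟩
      add_mem' := fun {a b} ha hb =>
        ⟨fun y hy => by rw [Dg.add_apply, ha.1 y hy, hb.1 y hy, add_zero],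
          by rw [map_add, ha.2, hb.2, add_zero]⟩
      neg_mem' := fun {a} ha =>
        ⟨fun y hy => by rw [Dg.neg_apply, ha.1 y hy, neg_zero], by rw [map_neg, ha.2, neg_zero]⟩ }
  let Tm : (G → Dg Y' N) →+ Dg Y' N :=
    ∑ g : G, (Df g).comp (Pi.evalAddMonoidHom (fun _ : G => Dg Y' N) g)
  have hTm : ∀ x, Tm x = ∑ g : G, (g • x g - x g) := fun x => by
    simp [Tm, AddMonoidHom.finsetSum_apply, Df_apply]
  let I : AddSubgroup (Dg Y' N) := (AddSubgroup.pi Set.univ fun _ : G => B).map Tm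
  let J : AddSubgroup (Dg Y' N) :=
    { carrier := {x | ∃ k : ℕ, k.Coprime p ∧ k • x ∈ I}
      zero_mem' := ⟨1, Nat.coprime_one_left p, by rw [smul_zero]; exact zero_mem _⟩
      add_mem' := fun {a b} ⟨k, hk, ha⟩ ⟨l, hl, hb⟩ => ⟨k * l, hk.mul_left hl, by
        rw [smul_add, mul_nsmul a, mul_nsmul' b]
        exact add_mem (nsmul_mem ha l) (nsmul_mem hb k)⟩
      neg_mem' := fun {a} ⟨k, hk, ha⟩ => ⟨k, hk, by rw [smul_neg]; exact neg_mem ha⟩ }
  let E : Y' → N →+ Dg Y' N ⧸ J := fun y => (QuotientAddGroup.mk' J).comp (Dg.single y)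
  have hE : ∀ y n, E y n = QuotientAddGroup.mk' J (Dg.single y n) := fun _ _ => rfl
  have hz : ∀ x, QuotientAddGroup.mk' J x = 0 ↔ ∃ k : ℕ, k.Coprime p ∧ k • x ∈ I := fun x =>
    QuotientAddGroup.eq_zero_iff x
  have h : EH p G S' E := by
    refine ⟨hS', fun g y hy y' hy' n => ?_, hfx, hX⟩
    rw [← sub_eq_zero, hE, hE, hE, hE, ← map_sub, ← map_sub, ← map_sub, hz]
    refine ⟨1, Nat.coprime_one_left p, Pi.single g (Dg.single y n - Dg.single y' n),
      fun g' _ => ?_, ?_⟩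
    · by_cases e : g' = g
      · rw [e, Pi.single_eq_same]
        refine ⟨fun z hz => ?_, by rw [map_sub, Dg.deg_single, Dg.deg_single, sub_self]⟩
        rw [Dg.sub_apply, single_apply, single_apply, if_neg (fun e : y = z => hz (e ▸ hy)),
          if_neg (fun e : y' = z => hz (e ▸ hy')), sub_self]
      · rw [Pi.single_eq_of_ne e]
        exact zero_mem B
    · rw [hTm, Fintype.sum_eq_single g fun g' e => by rw [Pi.single_eq_of_ne e]; simp,
        Pi.single_eq_same, one_smul, smul_sub, smul_single, smul_single]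
  have tf : ∀ k : ℕ, k.Coprime p → ∀ a : Dg Y' N ⧸ J, k • a = 0 → a = 0 := by
    intro k hk a ha
    obtain ⟨x, rfl⟩ := QuotientAddGroup.mk'_surjective J a
    rw [← map_nsmul, hz] at ha
    obtain ⟨l, hl, ha⟩ := ha
    exact (hz x).2 ⟨l * k, hl.mul_left hk, by rwa [mul_nsmul']⟩
  have hθ : θ = ∑ w ∈ S, Dg.single w (θ w) := by
    ext z
    rw [Dg.sum_apply]
    simp only [single_apply, sum_ite_eq']
    split_ifs with e
    · rfl
    · exact t1 z e
  have t4 : ∑ w ∈ S, θ w = 0 := by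
    rw [hθ, map_sum] at t2
    simpa only [Dg.deg_single] using t2
  have key := h.core hO hp hG tf hρ hμ hS h1 h2 h3 h4 t1 t4 t3
  simp only [hE, ← map_nsmul, ← map_sum] at key
  obtain ⟨k, hk, x, hx, e⟩ := (hz _).1 key
  refine ⟨k, x, hk, fun g => hx g (Set.mem_univ g), fun y => ?_⟩
  rw [← hTm, e, Dg.nsmul_apply, Dg.sum_apply, mul_nsmul']
  congr 1
  have e1 : ∀ w ∈ S, (∑ z ∈ Φ w, Dg.single z (μ z • θ w)) y =
      if ρ y = w then μ y • θ w else 0 := fun w hw => by
    rw [Dg.sum_apply]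
    simp only [single_apply, sum_ite_eq', h1 w hw]
  rw [sum_congr rfl e1, sum_ite_eq]
  split_ifs with e2
  · rfl
  · rw [t1 _ e2, smul_zero]

end Pool.Agent.MP_db5b97_nt.H44
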