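import Pool.Agent.MP_db5b97_nt.H31.SpecT

/-! Base change kills the invariants: the computation in an abstract target group. -/

namespace Pool.Agent.MP_db5b97_nt.H44

open H85 H31 Finset Subgroup

section General

variable {G N A T : Type} [Group G] [AddCommGroup N] [DistribMulAction G N] [AddCommGroup A]
  [MulAction G T] {p : ℕ}

theorem smul_Nm (g τ : G) (n : N) : g • Nm τ p n = Nm (g * τ * g⁻¹) p (g • n) := by
  simp only [Nm_apply, Finset.smul_sum, conj_pow, mul_smul, inv_smul_smul]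

theorem sum_coset {K : Type} [Group K] [Fintype K] (H : Subgroup K) [Fintype H]
    [Fintype (K ⧸ H)] (φ : K → A) : ∑ k, φ k = ∑ t : K ⧸ H, ∑ q : H, φ (t.out * q) := by
  rw [← Fintype.sum_prod_type']
  symm
  refine Fintype.sum_bijective (fun x : (K ⧸ H) × H => x.1.out * x.2) ⟨?_, fun k => ?_⟩ _ _
    fun _ => rfl
  · rintro ⟨t, q⟩ ⟨t', q'⟩ h
    have h1 : t = t' := by
      have := congrArg (QuotientGroup.mk : K → K ⧸ H) h
      simpa using this
    subst h1
    have h2 : q = q' := Subtype.ext (mul_left_cancel h)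
    rw [h2]
  · obtain ⟨q, hq⟩ := QuotientGroup.mk_out_eq_mul H k
    exact ⟨(QuotientGroup.mk k, q⁻¹), by simp [hq]⟩

theorem free_of_ne [Finite G] (hp : p.Prime) {τ : G} (hτ : τ ^ p = 1) {t : T} (ht : τ • t ≠ t)
    (g : zpowers τ) (hg : g • t = t) : g = 1 := by
  have := Fact.mk hp
  have h1 : τ ≠ 1 := fun h => ht (by rw [h, one_smul])
  have hc : Nat.card (zpowers τ) = p := by rw [Nat.card_zpowers, orderOf_eq_prime hτ h1]
  have := Fact.mk (hc ▸ hp : (Nat.card (zpowers τ)).Prime)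
  rcases (MulAction.stabilizer (zpowers τ) t).eq_bot_or_eq_top_of_prime_card with h | h
  · have : g ∈ MulAction.stabilizer (zpowers τ) t := hg
    rwa [h, mem_bot] at this
  · have : (⟨τ, mem_zpowers τ⟩ : zpowers τ) ∈ MulAction.stabilizer (zpowers τ) t := by
      rw [h]; exact mem_top _
    exact absurd this ht

theorem orb0 (hO : RowORB) [Finite G] (hp : p.Prime) {τ : G} (hτ : τ ^ p = 1) (S : Finset T)
    (φ : T → N →+ A) {ν : N} (hν : Nm τ p ν = 0) (hS : ∀ g ∈ zpowers τ, ∀ t ∈ S, g • t ∈ S)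
    (hφ : ∀ g ∈ zpowers τ, ∀ t ∈ S, ∀ n, φ (g • t) (g • n) = φ t n)
    (hf : ∀ t ∈ S, τ • t ≠ t) : ∑ t ∈ S, φ t ν = 0 := by
  classical
  rcases S.eq_empty_or_nonempty with rfl | ⟨t0, ht0⟩
  · simp
  have := Fact.mk hp
  have := Fintype.ofFinite (zpowers τ)
  have h1 : τ ≠ 1 := fun h => hf t0 ht0 (by rw [h, one_smul])
  have ho : orderOf τ = p := orderOf_eq_prime hτ h1
  have hs : ∑ g : zpowers τ, g • ν = 0 := by
    rw [← hν, Nm_apply, ← ho, ← Fin.sum_univ_eq_sum_range (fun i => τ ^ i • ν)]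
    symm
    exact Fintype.sum_equiv (finEquivZPowers (isOfFinOrder_of_finite τ)) _ _ fun i => rfl
  let θ : Dg T N := Dg.of (Finsupp.indicator S fun _ _ => ν)
  have hθ : ∀ t, θ t = if t ∈ S then ν else 0 := fun t => by
    simp [θ, Finsupp.indicator_apply]
  have key := hO (zpowers τ) T N A S φ θ (fun g t ht => hS g g.2 t ht)
    (fun g t ht n => hφ g g.2 t ht n) ?_ (fun t ht => by rw [hθ, if_neg ht]) ?_
  · rw [← key]
    exact sum_congr rfl fun t ht => by rw [hθ, if_pos ht]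
  · intro t ht D n hD hn
    have : D = {1} := by
      ext g
      rw [hD, mem_singleton]
      exact ⟨free_of_ne hp hτ (hf t ht) g, fun h => by rw [h, one_smul]⟩
    rw [this, sum_singleton, one_smul] at hn
    rw [hn, map_zero]
  · ext t
    rw [tr_apply, Dg.sum_apply, Dg.zero_apply]
    simp only [Dg.smul_apply, hθ]
    by_cases ht : t ∈ S
    · refine Eq.trans (sum_congr rfl fun g _ => ?_) hs
      have h2 : g⁻¹ • t ∈ S := hS _ (g⁻¹).2 t ht
      rw [if_pos h2]
    · refine sum_eq_zero fun g _ => ?_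
      rw [if_neg, smul_zero]
      intro h
      have h2 : g • g⁻¹ • t ∈ S := hS _ g.2 _ h
      rw [smul_inv_smul] at h2
      exact ht h2

end General

/-- the properties of the classes of the functions with one value -/
structure EH (p : ℕ) (G : Type) {N Y A : Type} [Group G] [AddCommGroup N] [DistribMulAction G N]
    [MulAction G Y] [AddCommGroup A] (S : Set Y) (E : Y → N →+ A) : Prop where
  st : ∀ g : G, ∀ y ∈ S, g • y ∈ S
  inv : ∀ g : G, ∀ y ∈ S, ∀ y' ∈ S, ∀ n,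
    E (g • y) (g • n) - E (g • y') (g • n) = E y n - E y' n
  fx : ∀ g : G, g ^ p = 1 → ∃ y ∈ S, g • y = y
  xh : XH p G N

variable {G N Y A : Type} [Group G] [AddCommGroup N] [DistribMulAction G N] [MulAction G Y]
  [AddCommGroup A] {p : ℕ} {S : Set Y} {E : Y → N →+ A}

theorem EH.k0 (h : EH p G S E) {P : Subgroup G} (hP : IsPGroup p P) {σ : G} (hσ : σ ∈ P)
    (h1 : ∀ g ∈ P, ∀ n : N, Nm σ p (g • n) = Nm σ p n) {y0 : Y} (hy : y0 ∈ S) (h0 : σ • y0 = y0)
    {π : G} (hπ : π ∈ P) (n : N) : E (π • y0) (p • n) = E y0 (p • n) := by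
  have hc := (h.xh.ab P hP σ hσ).2 π hπ
  have hσπ : σ • π • y0 = π • y0 := by rw [← mul_smul, hc, mul_smul, h0]
  set b : N →+ A := E (π • y0) - E y0 with hb
  have step : ∀ m, b (σ • m) = b m := fun m => by
    have := h.inv σ _ (h.st π y0 hy) y0 hy m
    rwa [hσπ, h0] at this
  have step2 : ∀ i : ℕ, b (σ ^ i • n) = b n := fun i => by
    induction i with
    | zero => rw [pow_zero, one_smul]
    | succ i ih => rw [pow_succ', mul_smul, step, ih]
  have e1 : b (p • n) = b (Nm σ p n) := by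
    rw [Nm_apply, map_sum, sum_congr rfl fun i _ => step2 i, sum_const, card_range, map_nsmul]
  have e2 : π • Nm σ p n = Nm σ p n := by
    rw [smul_Nm, ← hc, mul_inv_cancel_right, h1 π hπ]
  obtain ⟨y, hyS, hyπ⟩ := h.fx π (h.xh.ab P hP π hπ).1
  have e3 := h.inv π y0 hy y hyS (Nm σ p n)
  rw [e2, hyπ, sub_left_inj] at e3
  rw [← sub_eq_zero]
  exact e1.trans (sub_eq_zero.2 e3)

theorem EH.k1 (h : EH p G S E) {P : Subgroup G} (hP : IsPGroup p P) {σ : G} (hσ : σ ∈ P)
    (h2 : ∀ τ ∈ P, ∀ n : N, Nm τ p n = 0 → ∃ n' : N, p • n = Df τ (Df σ n')) {y0 : Y}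
    (hy : y0 ∈ S) (h0 : σ • y0 = y0) {τ : G} (hτ : τ ∈ P) {y1 : Y} (hy1 : y1 ∈ S)
    (h1 : τ • y1 = y1) {n : N} (hn : Nm τ p n = 0) : E y1 (p • n) = E y0 (p • n) := by
  obtain ⟨n', e⟩ := h2 τ hτ n hn
  have hc := (h.xh.ab P hP σ hσ).2 τ⁻¹ (P.inv_mem hτ)
  have hσπ : σ • τ⁻¹ • y0 = τ⁻¹ • y0 := by rw [← mul_smul, hc, mul_smul, h0]
  have e1 := h.inv τ y1 hy1 _ (h.st τ⁻¹ y0 hy) (Df σ n')
  rw [h1, smul_inv_smul] at e1
  have e2 := h.inv σ y0 hy _ (h.st τ⁻¹ y0 hy) n'
  rw [h0, hσπ] at e2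
  have e3 : E y0 (Df σ n') = E (τ⁻¹ • y0) (Df σ n') := by
    rw [Df_apply, map_sub, map_sub]
    linear_combination (norm := abel1) e2
  rw [e, Df_apply τ, map_sub, map_sub, e3]
  linear_combination (norm := abel1) e1

theorem moved_smul {T : Type} [MulAction G T] {τ g : G} (hg : g ∈ zpowers τ) {t : T}
    (ht : τ • t ≠ t) : τ • g • t ≠ g • t := by
  obtain ⟨k, rfl⟩ := hg
  intro h
  apply ht
  have hc : τ * τ ^ k = τ ^ k * τ := (Commute.refl τ).zpow_right k
  simp only [← mul_smul, hc] at h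
  rw [mul_smul] at h
  exact smul_left_cancel _ h

theorem fixed_smul {T : Type} [MulAction G T] {τ g : G} (hg : g ∈ zpowers τ) {t : T}
    (ht : τ • t = t) : g • t = t :=
  (zpowers_le.2 (show τ ∈ MulAction.stabilizer G t from ht)) hg

/-- the correction terms -/
theorem EH.exF (hO : RowORB) (h : EH p G S E) [Finite G] (hp : p.Prime) (hG : p ∣ Nat.card G) :
    ∃ (T : Type) (_ : Fintype T) (_ : MulAction G T) (F : T → N →+ A),
      (Fintype.card T).Coprime p ∧
      (∀ (g : G) (t : T), ∀ y ∈ S, ∀ n,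
        E (g • y) (p • g • n) - F (g • t) (g • n) = E y (p • n) - F t n) ∧
      ∀ τ : G, τ ^ p = 1 → ∀ y ∈ S, τ • y = y → ∀ n, Nm τ p n = 0 →
        ∑ t, (E y (p • n) - F t n) = 0 := by
  classical
  have := Fact.mk hp
  obtain ⟨P⟩ : Nonempty (Sylow p G) := inferInstance
  have hP : IsPGroup p (P : Subgroup G) := P.isPGroup'
  obtain ⟨σ, hσ, -, h1, h2⟩ := h.xh.gen P ⊥ hP fun hb => P.ne_bot_of_dvd_card hG (le_bot_iff.1 hb)
  obtain ⟨y0, hy, h0⟩ := h.fx σ (h.xh.ab P hP σ hσ).1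
  have := Fintype.ofFinite (G ⧸ (P : Subgroup G))
  let F : G ⧸ (P : Subgroup G) → N →+ A := fun t => (E (t.out • y0)).comp (nsmulAddMonoidHom p)
  have hF0 : ∀ t n, F t n = E (t.out • y0) (p • n) := fun _ _ => rfl
  have hF : ∀ (g : G) n, F (QuotientGroup.mk g) n = E (g • y0) (p • n) := fun g n => by
    obtain ⟨q, hq⟩ := QuotientGroup.mk_out_eq_mul (P : Subgroup G) g
    have e := h.inv g _ (h.st q y0 hy) y0 hy (p • g⁻¹ • n)
    rw [h.k0 hP hσ h1 hy h0 q.2, sub_self, sub_eq_zero, smul_comm g p, smul_inv_smul] at e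
    rw [hF0, hq, mul_smul, e]
  have hm : ∀ (g : G) (t : G ⧸ (P : Subgroup G)), g • t = QuotientGroup.mk (g * t.out) :=
    fun g t => (MulAction.Quotient.mk_smul_out (P : Subgroup G) g t).symm
  have hinv : ∀ (g : G) (t : G ⧸ (P : Subgroup G)), ∀ y ∈ S, ∀ n,
      E (g • y) (p • g • n) - F (g • t) (g • n) = E y (p • n) - F t n := fun g t y hyS n => by
    rw [hm, hF, hF0, mul_smul, ← smul_comm g p]
    exact h.inv g y hyS _ (h.st _ _ hy) _
  refine ⟨G ⧸ (P : Subgroup G), this, inferInstance, F, ?_, hinv, fun τ hτ y hyS hτy n hn => ?_⟩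
  · rw [← Nat.card_eq_fintype_card, Nat.coprime_comm, hp.coprime_iff_not_dvd]
    exact P.not_dvd_index
  · rw [← sum_filter_add_sum_filter_not univ fun t => τ • t = t]
    have e1 : ∑ t ∈ univ.filter fun t : G ⧸ (P : Subgroup G) => τ • t = t,
        (E y (p • n) - F t n) = 0 := by
      refine sum_eq_zero fun t ht => ?_
      have ht1 : τ • t = t := (mem_filter.1 ht).2
      have ht2 : t.out⁻¹ * τ * t.out⁻¹⁻¹ ∈ (P : Subgroup G) := by
        rw [inv_inv, mul_assoc, ← QuotientGroup.eq, ← hm, ht1, QuotientGroup.out_eq']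
      have e := h.k1 hP hσ h2 hy h0 ht2 (h.st t.out⁻¹ y hyS)
        (by simp only [mul_smul, inv_smul_smul, hτy]) (n := t.out⁻¹ • n)
        (by rw [← smul_Nm, hn, smul_zero])
      have e' := h.inv t.out _ (h.st t.out⁻¹ y hyS) y0 hy (p • t.out⁻¹ • n)
      rwa [e, sub_self, smul_comm t.out p, smul_inv_smul, smul_inv_smul] at e'
    have e2 := orb0 hO hp hτ (univ.filter fun t : G ⧸ (P : Subgroup G) => ¬ τ • t = t)
      (fun t => (E y).comp (nsmulAddMonoidHom p) - F t) hn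
      (fun g hg t ht => mem_filter.2 ⟨mem_univ _, moved_smul hg (mem_filter.1 ht).2⟩)
      (fun g hg t _ m => by
        have e := hinv g t y hyS m
        rw [fixed_smul hg hτy] at e
        exact e)
      (fun t ht => (mem_filter.1 ht).2)
    rw [e1, zero_add]
    exact e2

end Pool.Agent.MP_db5b97_nt.H44
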